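import Mathlib
import Pool.Agent.H35.WS.Fin

/-!
# Small witnesses for the strong pseudoprimality test: the exponent `31/64` for all composites

Unconditionally all but `O(x^(31/64))` of the composite numbers `n ≤ x` have a witness
`1 < b ≤ 2 (log n)²`, without any condition on the factorisation of `n`.

The large sieve for real characters gives the exponent `1/2 + ε`. An exception `n` satisfies
`λ(D) ∣ n - 1` for every divisor `D` of `n`, where `λ(D)` is the exponent of the group generated by the small
primes modulo `D`, so a factor `E` of `n` lies in a progression modulo `λ(n/E)`.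

* In a progression modulo `L` the large sieve is used with the Polya-Vinogradov inequality for the characters
  `(· / ab) ψ`: there are at most `x^ε (L + L^(1/3) X^(2/3) ...)`-type many odd numbers with given symbols, i.e. the
  exponent is `2/3` of the length of the progression.
* A divisor `E` of `n` of medium size is removed with the saving `x^(1/63)`; if this is not possible the
  complement has exponent at most `x^(1/21)`, so it is composed of primes whose exponents divide a fixed small
  number; a sum over the divisors of that number shows that at most `X^(5/12+ε)` such primes are below `X`, and the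
  same exponent holds for their products.
* If one prime is not tied to the others its exponent can exceed the square root by a power of `x`; this loss is
  balanced against the divisibility `λ(p) ∣ m - 1`.
* In the case of two large primes with the same symbols either one of the two progressions is long enough or
  `n = (1 + g a)(1 + g b)` with few parameters `a, b`, and one uses the large sieve for the values of a quadratic
  polynomial.
-/

set_option autoImplicit false

namespace Pool.Agent.Results.MP_0b15c0_nt.ThirtyOneSixtyFourths

/-- `n` fails the strong test for the base `b`: writing `n - 1 = 2 ^ j * d` with `d` odd, neither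
`b ^ d = 1` nor `b ^ (2 ^ i * d) = -1` for some `i < j`, modulo `n`. -/
def IsWitness (n b : ℕ) : Prop :=
  ∀ j d : ℕ, n - 1 = 2 ^ j * d → Odd d →
    (b : ZMod n) ^ d ≠ 1 ∧ ∀ i : ℕ, i < j → (b : ZMod n) ^ (2 ^ i * d) ≠ -1

/-- the composite numbers at most `x` without a witness in `1 < b ≤ 2 (log n)^2` -/
def Exceptions (x : ℕ) : Set ℕ :=
  {n : ℕ | n ≤ x ∧ 2 ≤ n ∧ ¬ n.Prime ∧
    ¬ ∃ b : ℕ, 1 < b ∧ (b : ℝ) ≤ 2 * (Real.log n) ^ 2 ∧ IsWitness n b}

/-- There is `K` such that for all `x ≥ 1` at most `K x^(31/64)` composite `n ≤ x` have no witness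
`b` with `1 < b ≤ 2 (log n)^2`. -/
theorem result : ∃ K : ℝ, ∀ x : ℕ, 1 ≤ x →
    (Exceptions x).Finite ∧
      ((Exceptions x).ncard : ℝ) ≤ K * (x : ℝ) ^ (31 / 64 : ℝ) := by
  classical
  obtain ⟨K, _, hK⟩ := H35.WS.ws_count
  refine ⟨K, fun x hx => ?_⟩
  have h1 : Exceptions x ⊆ (((Finset.Icc 1 x).filter (W57.SW.Bd 2) : Finset ℕ) : Set ℕ) := by
    intro n hn
    obtain ⟨h1, h2, h3, h4⟩ := hn
    rw [Finset.mem_coe, Finset.mem_filter, Finset.mem_Icc]
    refine ⟨⟨by omega, h1⟩, h2, h3, fun b hb1 hb2 => ?_⟩
    by_contra hp
    apply h4
    refine ⟨b, hb1, ?_, fun j d hjd hd => ⟨fun e => ?_, fun i hi e => ?_⟩⟩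
    · rw [← Real.rpow_natCast]
      exact_mod_cast hb2
    · exact hp ⟨j, d, hjd, hd, Or.inl e⟩
    · exact hp ⟨j, d, hjd, hd, Or.inr ⟨i, hi, e⟩⟩
  have h2 : (Exceptions x).Finite := (Finset.finite_toSet _).subset h1
  refine ⟨h2, le_trans ?_ (hK x hx)⟩
  have h3 := Set.ncard_le_ncard h1 (Finset.finite_toSet _)
  rw [Set.ncard_coe_finset] at h3
  exact_mod_cast h3

end Pool.Agent.Results.MP_0b15c0_nt.ThirtyOneSixtyFourths
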